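import Pool.Agent.H51.EqTE

namespace Pool.Agent.Results.MP_76d60e_lc.Counter

open Pool.Agent.H51.EqT Filter Topology

theorem result : ∃ (k : ℕ) (G : SimpleGraph (Fin k)), 3 ≤ k ∧ G.Connected ∧ ¬G.IsHamiltonian ∧
    Tendsto (fun n : ℕ => (cost G n : ℝ) / n) atTop (𝓝 ((k : ℝ) / 2)) := by
  refine ⟨9, GT, by norm_num, GT_conn, GT_not_ham, ?_⟩
  have := tendsto_fc GT_conn
  rw [fc_GT] at this
  simpa using this

end Pool.Agent.Results.MP_76d60e_lc.Counter
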